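import Pool.Agent.Helper46_UHF.Assemble

/-!
# Unital embeddings of nonseparable UHF-type tensor products

For cardinals `κ < κ'` the cancellation implication

  `⊗_{κ'} M_2` embeds unitally into `A ⊗ ⊗_κ M_2`  ⟹  `⊗_κ M_2` embeds unitally into `A`

holds for all tensor products `A` of full matrix algebras if and only if `κ'` is infinite or
`κ + κ ≤ κ'`.

The infinite tensor products are described intrinsically: a nonzero unital C*-algebra generated by
commuting unital copies of the factors. (Finite tensor products of full matrix algebras are simple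
and have a unique C*-norm, so such an algebra is the inductive limit of the finite tensor
products; see `exists_isMatTensor` and `isMatTensor_unique` below.)
-/

set_option autoImplicit false

open Cardinal

universe u v w

namespace Pool.Agent.Results.MP_0dad12_an.UnitalEmbeddings

/-- `A` is the infinite C*-tensor product `⊗_{i : I} M_{n i}(ℂ)`: it is a nonzero unital
C*-algebra with unital star-homomorphisms `φ i : M_{n i}(ℂ) → A` whose images commute for distinct
indices, and the star-subalgebra generated by all the images is dense. -/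
def IsMatTensor {I : Type u} (n : I → ℕ) (A : Type v) [CStarAlgebra A] : Prop :=
  Nontrivial A ∧ ∃ φ : ∀ i, Matrix (Fin (n i)) (Fin (n i)) ℂ →⋆ₐ[ℂ] A,
    (∀ i j, i ≠ j → ∀ a b, Commute (φ i a) (φ j b)) ∧
    Dense ((StarAlgebra.adjoin ℂ (⋃ i, Set.range (φ i)) : StarSubalgebra ℂ A) : Set A)

/-- `E` is the C*-tensor product `A ⊗ B` (for the nuclear simple algebras considered here): it is
a nonzero unital C*-algebra with unital star-homomorphisms from `A` and from `B` whose images
commute, and the star-subalgebra generated by the two images is dense. -/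
def IsTensor (A : Type u) (B : Type v) (E : Type w) [CStarAlgebra A] [CStarAlgebra B]
    [CStarAlgebra E] : Prop :=
  Nontrivial E ∧ ∃ (α : A →⋆ₐ[ℂ] E) (β : B →⋆ₐ[ℂ] E), (∀ a b, Commute (α a) (β b)) ∧
    Dense ((StarAlgebra.adjoin ℂ (Set.range α ∪ Set.range β) : StarSubalgebra ℂ E) : Set E)

/-- `B` embeds unitally into `C`: there is an injective unital star-homomorphism `B → C`. -/
def UnitallyEmbeds (B : Type u) (C : Type v) [CStarAlgebra B] [CStarAlgebra C] : Prop :=
  ∃ f : B →⋆ₐ[ℂ] C, Function.Injective f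

/-- Existence of infinite tensor products of full matrix algebras (not part of `result`). -/
theorem exists_isMatTensor {I : Type u} {n : I → ℕ} (hn : ∀ i, 0 < n i) :
    ∃ (A : Type u) (_ : CStarAlgebra A), IsMatTensor n A := by
  obtain ⟨A, cA, nA, φ, h1, h2⟩ := Helper46_UHF.exists_model hn
  exact ⟨A, cA, nA, φ, h1, (Helper46_UHF.dense_iff φ).2 h2⟩

/-- Two infinite tensor products of the same matrix algebras are isomorphic (not part of
`result`). -/
theorem isMatTensor_unique {I : Type u} {n : I → ℕ} {A : Type v} {B : Type w} [CStarAlgebra A]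
    [CStarAlgebra B] (hA : IsMatTensor n A) (hB : IsMatTensor n B) : Nonempty (A ≃⋆ₐ[ℂ] B) := by
  obtain ⟨nA, φ, h1, h2⟩ := hA
  obtain ⟨nB, ψ, h3, h4⟩ := hB
  rw [Helper46_UHF.dense_iff] at h2 h4
  obtain ⟨f, hf, hf'⟩ := Helper46_UHF.exists_embedding (φ := φ) h1 h2 (ψ := ψ) h3
  obtain ⟨g, hg, hg'⟩ := Helper46_UHF.exists_embedding (φ := ψ) h3 h4 (ψ := φ) h1
  have hfg : ∀ b, f (g b) = b := by
    intro b
    exact Helper46_UHF.mem_of_dense h4 (StarAlgHom.equalizer (f.comp g) (StarAlgHom.id ℂ B))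
      (isClosed_eq (AddMonoidHomClass.continuous_of_bound (f.comp g) 1
        (fun x => by rw [one_mul]; exact NonUnitalStarAlgHom.norm_apply_le (f.comp g) x))
        continuous_id)
      (fun i M => by
        change f (g (ψ i M)) = ψ i M
        rw [hg', hf']) b
  exact ⟨StarAlgEquiv.ofBijective f ⟨hf, fun b => ⟨g b, hfg b⟩⟩⟩

/-- **Main result.** Let `κ = #K < κ' = #K'`. The implication of the problem holds for every
`A = ⊗_{i : I} M_{n i}(ℂ)` (`I` arbitrary, `n i` positive) if and only if `κ'` is infinite or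
`κ + κ ≤ κ'`. Here `B = ⊗_κ M_2`, `B' = ⊗_{κ'} M_2` and `E = A ⊗ B`. -/
theorem result (K K' : Type u) (hlt : #K < #K') :
    (∀ (I : Type u) (n : I → ℕ) (A B B' E : Type u) [CStarAlgebra A] [CStarAlgebra B]
      [CStarAlgebra B'] [CStarAlgebra E], (∀ i, 0 < n i) →
      IsMatTensor n A → IsMatTensor (fun _ : K => 2) B → IsMatTensor (fun _ : K' => 2) B' →
      IsTensor A B E → UnitallyEmbeds B' E → UnitallyEmbeds B A) ↔
    (ℵ₀ ≤ #K' ∨ #K + #K ≤ #K') := by
  constructor
  · intro H
    by_contra hcon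
    push Not at hcon
    obtain ⟨I, n, A, B, B', E, cA, cB, cB', cE, nA, nB, nB', nE, φ, ψ, ψ', α, β, h1, h2, h3, h4,
      h5, h6, h7, h8, h9, h10, h11⟩ := Helper46_UHF.negative K K' hlt hcon.2
    exact h11 (H I n A B B' E h1 ⟨nA, φ, h2, (Helper46_UHF.dense_iff φ).2 h3⟩
      ⟨nB, ψ, h4, (Helper46_UHF.dense_iff (n := fun _ : K => 2) ψ).2 h5⟩
      ⟨nB', ψ', h6, (Helper46_UHF.dense_iff (n := fun _ : K' => 2) ψ').2 h7⟩
      ⟨nE, α, β, h8, h9⟩ h10)
  · intro hle I n A B B' E _ _ _ _ hn hA hB hB' hE hf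
    obtain ⟨nA, φ, h2, h3⟩ := hA
    obtain ⟨nB, ψ, h4, h5⟩ := hB
    obtain ⟨nB', ψ', h6, h7⟩ := hB'
    obtain ⟨nE, α, β, h8, h9⟩ := hE
    obtain ⟨f, hf⟩ := hf
    rw [Helper46_UHF.dense_iff] at h3 h5
    have hle' : #K + #K ≤ #K' := by
      rcases hle with h | h
      · exact (add_lt_of_lt h hlt hlt).le
      · exact h
    exact Helper46_UHF.positive (φ := φ) h2 h3 (ψ := ψ) h4 h5 (ψ' := ψ') h6 α β h8 h9 f hlt hle'

end Pool.Agent.Results.MP_0dad12_an.UnitalEmbeddings
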